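import Mathlib
import Pool.Agent.N515.PWL.Cov

/-!
# First countable almost Lindelöf Hausdorff spaces of large cardinality

For every cardinal `κ` below the first inaccessible cardinal there is a first countable Hausdorff
space `X` in which every open cover has a countable subfamily whose closures cover `X`, such that
`|X| ≥ κ` and `|X| > 2 ^ (pwL X * chr X) = 2 ^ ℵ₀`.
-/

set_option autoImplicit false
universe u

open Cardinal

namespace Pool.Agent.Results.MP_8b81fd_gt.AlmostLindelof

open Pool.Agent.N515.PWL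

theorem result (κ : Cardinal.{u}) (hκ : ∀ θ : Cardinal.{u}, θ.IsInaccessible → κ < θ) :
    ∃ (X : Type u) (_ : TopologicalSpace X), T2Space X ∧ AlmostLindelof X ∧
      chr X = ℵ₀ ∧ pwL X = ℵ₀ ∧ 2 ^ (pwL X * chr X) < Cardinal.mk X ∧ κ ≤ Cardinal.mk X := by
  obtain ⟨X, tX, h1, h2, h3, h4, h5, h6⟩ := Pool.Agent.N515.PWL.main κ hκ
  refine ⟨X, tX, h1, h2, h3, h4, ?_, h6⟩
  rw [h3, h4, Cardinal.aleph0_mul_aleph0, Cardinal.two_power_aleph0]
  exact h5

end Pool.Agent.Results.MP_8b81fd_gt.AlmostLindelof
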